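import Pool.Agent.MP_62ad46_lc.H18.Gen

/-! Existence of generic sets, and the least nonzero join-prime degree. -/

set_option linter.unusedSectionVars false
set_option synthInstance.maxSize 100000

namespace Pool.Agent.MP_62ad46_lc.H18

open Cardinal

theorem exists_disjoint_choice {α ι : Type} (hα : ℵ₀ < #α) (hι : #ι ≤ #α) (T : ι → Set α)
    (hT : ∀ r, #α ≤ #(T r)) (S : ι → α → Set α) (hfin : ∀ r, ∀ i ∈ T r, (S r i).Finite)
    (hdisj : ∀ r, ∀ i ∈ T r, ∀ j ∈ T r, ∀ x, x ∈ S r i → x ∈ S r j → i = j) :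
    ∃ f : ι → α, (∀ r, f r ∈ T r) ∧ ∀ r s x, x ∈ S r (f r) → x ∈ S s (f s) → r = s := by
  classical
  obtain ⟨lt, wo, hlt⟩ := Cardinal.exists_ord_eq ι
  have small : ∀ r, #{s // lt s r} < #α := fun r => by
    have := Cardinal.card_typein_lt (r := lt) r hlt
    rw [Ordinal.card_typein] at this
    exact this.trans_le hι
  have step : ∀ (r : ι) (g : ∀ s, lt s r → {i // i ∈ T s}), ∃ i : {i // i ∈ T r},
      ∀ s (h : lt s r) x, x ∈ S r i → x ∉ S s (g s h) := by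
    intro r g
    by_contra hn
    push Not at hn
    choose s h x hx hx' using hn
    let U : Set α := ⋃ s : {s // lt s r}, S s (g s s.2)
    have hU : #U < #α := by
      refine (mk_iUnion_le_sum_mk.trans (sum_le_sum _ (fun _ => ℵ₀) fun s => ?_)).trans_lt ?_
      · exact ((hfin _ _ (g s s.2).2).lt_aleph0).le
      · rw [sum_const']
        exact mul_lt_of_lt hα.le (small r) hα
    have : #(T r) ≤ #U := by
      refine mk_le_of_injective (f := fun i => ⟨x i, Set.mem_iUnion.2 ⟨⟨s i, h i⟩, hx' i⟩⟩) ?_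
      intro i j e
      have e' : x i = x j := congrArg Subtype.val e
      exact Subtype.ext (hdisj r i i.2 j j.2 (x i) (hx i) (e' ▸ hx j))
    exact absurd ((hT r).trans this) (not_le.2 hU)
  choose F hF using step
  let f : ∀ r, {i // i ∈ T r} := wo.wf.fix F
  have hf : ∀ r, f r = F r fun s _ => f s := fun r => wo.wf.fix_eq F r
  have key : ∀ r s x, lt s r → x ∈ S r (f r) → x ∉ S s (f s) := fun r s x h hx => by
    rw [hf r] at hx
    exact hF r (fun s _ => f s) s h x hx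
  refine ⟨fun r => f r, fun r => (f r).2, fun r s x hx hx' => ?_⟩
  rcases trichotomous_of lt r s with h | h | h
  · exact absurd hx (key s r x h hx')
  · exact h
  · exact absurd hx' (key r s x h hx)

variable {M : Type} [CommSemiring M] [LinearOrder M] [IsPA M]

theorem nat_dvd_iff {a b : ℕ} : (a : M) ∣ (b : M) ↔ a ∣ b := by
  refine ⟨fun h => ?_, fun h => Nat.cast_dvd_cast h⟩
  obtain ⟨q, h1, h2⟩ := dvd_iff_bdd.1 h
  obtain ⟨n, -, rfl⟩ := exists_nat_of_le (lt_succ_iff.1 h1)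
  exact ⟨n, by exact_mod_cast h2⟩

theorem continuum_le (hS : Sat (aleph 1) M) {c : M} (hc : c ∉ omega M) :
    𝔠 ≤ #{x : M | x ≤ c} := by
  classical
  have : ∀ r : Set ℕ, ∃ x : M, ∀ n : ℕ, x ≤ c ∧ ((Nat.nth Nat.Prime n : M) ∣ x ↔ n ∈ r) := by
    intro r
    refine hS.seq (fun n x => x ≤ c ∧ ((Nat.nth Nat.Prime n : M) ∣ x ↔ n ∈ r))
      (fun n => Ar.and (by exact ArI.out) (Ar.iff (by exact ArI.out) (Ar.const _))) fun N => ?_
    refine ⟨((∏ m ∈ (Finset.range N).filter (· ∈ r), Nat.nth Nat.Prime m : ℕ) : M),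
      fun n hn => ⟨le_of_nonstd (nat_std _) hc, ?_⟩⟩
    rw [nat_dvd_iff, (Nat.prime_nth_prime n).prime.dvd_finsetProd_iff]
    constructor
    · rintro ⟨m, hm, h⟩
      have := (Nat.prime_dvd_prime_iff_eq (Nat.prime_nth_prime n) (Nat.prime_nth_prime m)).1 h
      rw [Nat.nth_injective Nat.infinite_setOfPred_prime this]
      exact (Finset.mem_filter.1 hm).2
    · exact fun h => ⟨n, Finset.mem_filter.2 ⟨Finset.mem_range.2 hn, h⟩, dvd_rfl⟩
  choose f hf using this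
  rw [← mk_set_nat]
  refine mk_le_of_injective (f := fun r => ⟨f r, (hf r 0).1⟩) fun r s e => ?_
  have e' : f r = f s := congrArg Subtype.val e
  ext n
  rw [← (hf r n).2, ← (hf s n).2, e']

theorem card_of_sat (hS : Sat #M M) {c : M} (hc : c ∉ omega M) : #M ≤ #{x : M | x ≤ c} := by
  classical
  by_contra hn
  obtain ⟨y, hy⟩ := hS {x : M | x ≤ c} (fun x y => y ≤ c ∧ y ≠ x.1) (not_le.1 hn)
    (fun x => (by exact ArI.out)) fun F => by
      obtain ⟨n, hn⟩ := Infinite.exists_notMem_finset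
        ((F.image Subtype.val).preimage (Nat.cast : ℕ → M) Nat.cast_injective.injOn)
      refine ⟨n, fun x hx => ⟨le_of_nonstd (nat_std n) hc, fun e => hn ?_⟩⟩
      exact Finset.mem_preimage.2 (Finset.mem_image.2 ⟨x, hx, e.symm⟩)
  exact (hy ⟨y, (hy ⟨c, le_refl c⟩).1⟩).2 rfl

theorem exists_cg (hS : Sat (aleph 1) M) (hM : ∀ c ∉ omega M, #M ≤ #{x : M | x ≤ c})
    (E : Set M) : ∃ R : Set M, CG R ∧ CG {x | x ∈ R ↔ x ∉ E} := by
  obtain ⟨a, ha⟩ := hS.nonstd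
  have h0 : ℵ₀ < #M := aleph0_lt_continuum.trans_le ((continuum_le hS ha).trans (mk_set_le _))
  let ι := {r : (M × M × M) × Bool // Fam r.1.1 r.1.2.1 r.1.2.2}
  have hι : #ι ≤ #M := by
    refine (mk_subtype_le _).trans (le_of_eq ?_)
    simp only [mk_prod, lift_id, mul_eq_self h0.le, mk_bool]
    exact mul_eq_left h0.le ((natCast_lt_aleph0 (n := 2)).le.trans h0.le) two_ne_zero
  obtain ⟨f, hf, hd⟩ := exists_disjoint_choice h0 hι (fun r => {x | x ≤ r.1.1.1})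
    (fun r => hM _ r.2.1) (fun r i => supp r.1.1.2.1 r.1.1.2.2 i) (fun r i hi => r.2.2.1 i hi)
    fun r i hi j hj x => r.2.2.2.2 i hi j hj x
  let R : Set M := {x | ∃ r : ι, x ∈ supp r.1.1.2.1 r.1.1.2.2 (f r) ∧
    (mem (pr (f r) x) r.1.1.2.1 ↔ (r.1.2 = true → x ∉ E))}
  have hR : ∀ r : ι, ∀ x ∈ supp r.1.1.2.1 r.1.1.2.2 (f r),
      (x ∈ R ↔ (mem (pr (f r) x) r.1.1.2.1 ↔ (r.1.2 = true → x ∉ E))) := by
    intro r x hx
    refine ⟨?_, fun h => ⟨r, hx, h⟩⟩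
    rintro ⟨s, hs, h⟩
    obtain rfl := hd r s x hx hs
    exact h
  refine ⟨R, fun c p₀ p₁ h => ?_, fun c p₀ p₁ h => ?_⟩
  · let r : ι := ⟨((c, p₀, p₁), false), h⟩
    refine ⟨f r, hf r, fun x hx => (hR r x (Or.inl hx)).2 (by simpa [r] using hx), fun x hx => ?_⟩
    rw [hR r x (Or.inr hx)]
    have := h.2.2.1 (f r) (hf r) x
    simp only [r, Bool.false_eq_true, false_imp_iff, iff_true]
    exact fun h' => this h' hx
  · let r : ι := ⟨((c, p₀, p₁), true), h⟩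
    refine ⟨f r, hf r, fun x hx => ?_, fun x hx => ?_⟩
    · have := hR r x (Or.inl hx)
      simp only [r, forall_true_left] at this
      simp only [Set.mem_ofPred_eq]
      tauto
    · have := hR r x (Or.inr hx)
      have h' := h.2.2.1 (f r) (hf r) x
      simp only [r, forall_true_left] at this
      simp only [Set.mem_ofPred_eq]
      tauto

/-- the set recording which coded sets are contained in `A` or in its complement -/
def facts (A : Set M) : Set M := {z | ∃ k, (z = pr k 1 ∧ Sub k A) ∨ (z = pr k 0 ∧ Sub k Aᶜ)}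

theorem red_of_xor {A X Z : Set M} (h1 : Red X Z) (h2 : Red {x | x ∈ X ↔ x ∉ facts A} Z) :
    Red A Z := by
  obtain ⟨V, hV, eV⟩ := h1
  obtain ⟨W, hW, eW⟩ := h2
  have : S4 W := ⟨hW⟩
  have : S4 V := ⟨hV⟩
  have key : ∀ z, z ∈ facts A ↔ ∃ h₀ h₁, Sub h₀ Z ∧ Sub h₁ Zᶜ ∧ ∃ s a₀ a₁ b₀ b₁, mem z s ∧
      ((V s 1 a₀ a₁ ∧ W s 0 b₀ b₁) ∨ (V s 0 a₀ a₁ ∧ W s 1 b₀ b₁)) ∧
      sub a₀ h₀ ∧ sub b₀ h₀ ∧ sub a₁ h₁ ∧ sub b₁ h₁ := by
    intro z
    constructor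
    · intro hz
      obtain ⟨s, hs⟩ := exists_single z
      by_cases hX : z ∈ X
      · obtain ⟨a₀, a₁, p₀, p₁, ha⟩ := (eV s).1.1 fun x hx => (hs x).1 hx ▸ hX
        obtain ⟨b₀, b₁, q₀, q₁, hb⟩ := (eW s).2.1 fun x hx => (hs x).1 hx ▸ by simp [hX, hz]
        obtain ⟨h₀, r₀, r₁, r₂, -⟩ := union_sub p₀ q₀
        obtain ⟨h₁, t₀, t₁, t₂, -⟩ := union_sub p₁ q₁
        exact ⟨h₀, h₁, r₀, t₀, s, a₀, a₁, b₀, b₁, (hs z).2 rfl, Or.inl ⟨ha, hb⟩, r₁, r₂, t₁, t₂⟩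
      · obtain ⟨a₀, a₁, p₀, p₁, ha⟩ := (eV s).2.1 fun x hx => (hs x).1 hx ▸ hX
        obtain ⟨b₀, b₁, q₀, q₁, hb⟩ := (eW s).1.1 fun x hx => (hs x).1 hx ▸ by simp [hX, hz]
        obtain ⟨h₀, r₀, r₁, r₂, -⟩ := union_sub p₀ q₀
        obtain ⟨h₁, t₀, t₁, t₂, -⟩ := union_sub p₁ q₁
        exact ⟨h₀, h₁, r₀, t₀, s, a₀, a₁, b₀, b₁, (hs z).2 rfl, Or.inr ⟨ha, hb⟩, r₁, r₂, t₁, t₂⟩
    · rintro ⟨h₀, h₁, r₀, t₀, s, a₀, a₁, b₀, b₁, hs, h | h, r₁, r₂, t₁, t₂⟩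
      · have u := (eV s).1.2 ⟨a₀, a₁, r₀.mono r₁, t₀.mono t₁, h.1⟩ z hs
        have w := (eW s).2.2 ⟨b₀, b₁, r₀.mono r₂, t₀.mono t₂, h.2⟩ z hs
        simpa [u] using w
      · have u : z ∉ X := (eV s).2.2 ⟨a₀, a₁, r₀.mono r₁, t₀.mono t₁, h.1⟩ z hs
        have w := (eW s).1.2 ⟨b₀, b₁, r₀.mono r₂, t₀.mono t₂, h.2⟩ z hs
        simpa [u] using w
  refine ⟨fun k i h₀ h₁ => ∃ s a₀ a₁ b₀ b₁, mem (pr k i) s ∧
      ((V s 1 a₀ a₁ ∧ W s 0 b₀ b₁) ∨ (V s 0 a₀ a₁ ∧ W s 1 b₀ b₁)) ∧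
      sub a₀ h₀ ∧ sub b₀ h₀ ∧ sub a₁ h₁ ∧ sub b₁ h₁, (by exact S1I.out), fun k => ?_⟩
  rw [← key, ← key]
  simp [facts, pr_inj]

/-- `a` is a nonzero join-prime element of the partial order `D`. -/
def IsPrime {D : Type} [LE D] (a : D) : Prop :=
  (¬ ∀ z, a ≤ z) ∧ ∀ x y, (∀ z, x ≤ z → y ≤ z → a ≤ z) → a ≤ x ∨ a ≤ y

theorem isPrime_omega (hS : Sat (aleph 1) M) : IsPrime (deg (omega M)) := by
  refine ⟨fun h => not_red_omega_of_dir hS (dir_empty hS) (deg_le_iff.1 (h (deg ∅))), ?_⟩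
  rintro ⟨X⟩ ⟨Y⟩ h
  have := h (deg (join X Y)) (deg_le_iff.2 (red_join_left X Y)) (deg_le_iff.2 (red_join_right X Y))
  exact (omega_prime hS (deg_le_iff.1 this)).imp deg_le_iff.2 deg_le_iff.2

theorem omega_le_of_isPrime (hS : Sat (aleph 1) M)
    (hG : ∀ E : Set M, ∃ R : Set M, CG R ∧ CG {x | x ∈ R ↔ x ∉ E}) {a : Deg M} (ha : IsPrime a) :
    deg (omega M) ≤ a := by
  obtain ⟨A⟩ := a
  refine deg_le_iff.2 (red_omega_of_not_dir hS fun hA => ha.1 ?_)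
  obtain ⟨R, h1, h2⟩ := hG (facts A)
  have : Red A ∅ := by
    rcases ha.2 (deg R) (deg {x | x ∈ R ↔ x ∉ facts A}) (by
      rintro ⟨Z⟩ u w
      exact deg_le_iff.2 (red_of_xor (deg_le_iff.1 u) (deg_le_iff.1 w))) with h | h
    · exact red_empty_of_cg hS hA h1 (deg_le_iff.1 h)
    · exact red_empty_of_cg hS hA h2 (deg_le_iff.1 h)
  rintro ⟨Z⟩
  exact deg_le_iff.2 (this.trans (red_empty Z))

theorem eq_omega_iff (hS : Sat (aleph 1) M)
    (hG : ∀ E : Set M, ∃ R : Set M, CG R ∧ CG {x | x ∈ R ↔ x ∉ E}) (a : Deg M) :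
    a = deg (omega M) ↔ IsPrime a ∧ ∀ b, IsPrime b → a ≤ b := by
  constructor
  · rintro rfl
    exact ⟨isPrime_omega hS, fun b hb => omega_le_of_isPrime hS hG hb⟩
  · obtain ⟨A⟩ := a
    exact fun h => deg_eq_iff.2 ⟨deg_le_iff.1 (h.2 _ (isPrime_omega hS)),
      deg_le_iff.1 (omega_le_of_isPrime hS hG h.1)⟩

end Pool.Agent.MP_62ad46_lc.H18
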