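import Pool.Agent.MP_62ad46_lc.H18.Exist

/-! The least nonzero join-prime element is first-order definable in the language of order. -/

namespace Pool.Agent.MP_62ad46_lc.H18

open FirstOrder FirstOrder.Language

/-- the formula saying that the last variable is a nonzero join-prime element -/
def primeFm {α : Type} (n : ℕ) : Language.order.BoundedFormula α (n + 1) :=
  (∼ (∀' ((&(Fin.last n).castSucc).le (&(Fin.last (n + 1)))))) ⊓
    ∀' ∀' ((∀' (((&(Fin.last (n + 1)).castSucc.castSucc).le (&(Fin.last (n + 3)))) ⟹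
        ((&(Fin.last (n + 2)).castSucc).le (&(Fin.last (n + 3)))) ⟹
        ((&(Fin.last n).castSucc.castSucc.castSucc).le (&(Fin.last (n + 3)))))) ⟹
      ((&(Fin.last n).castSucc.castSucc).le (&(Fin.last (n + 1)).castSucc)) ⊔
        ((&(Fin.last n).castSucc.castSucc).le (&(Fin.last (n + 2)))))

/-- the least nonzero join-prime element -/
def leastPrimeFm : Language.order.Formula (Fin 1) :=
  ∃' ((Term.bdEqual (Term.var (Sum.inl 0)) (&0)) ⊓ primeFm 0 ⊓
    ∀' (primeFm 1 ⟹ (&0).le (&1)))

theorem definable_of_iff {D : Type} [LE D] (a : D)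
    (h : ∀ x, x = a ↔ IsPrime x ∧ ∀ b, IsPrime b → x ≤ b) :
    letI := Language.orderStructure D
    (∅ : Set D).Definable₁ Language.order {a} := by
  letI := Language.orderStructure D
  have : Language.order.OrderedStructure D := ⟨fun _ => Iff.rfl⟩
  have hp : ∀ (n : ℕ) (v : Fin 1 → D) (xs : Fin (n + 1) → D),
      (primeFm n).Realize v xs ↔ IsPrime (xs (Fin.last n)) := by
    intro n v xs
    simp [primeFm, IsPrime, Term.realize_le]
  rw [Set.Definable₁, Set.empty_definable_iff]
  refine ⟨leastPrimeFm, ?_⟩
  ext v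
  simp only [Set.mem_ofPred_eq, Set.mem_singleton_iff, h, leastPrimeFm, Formula.Realize,
    BoundedFormula.realize_ex, BoundedFormula.realize_inf, BoundedFormula.realize_all,
    BoundedFormula.realize_imp, hp, Term.realize_le, BoundedFormula.realize_bdEqual]
  simp [Fin.snoc, and_assoc]

end Pool.Agent.MP_62ad46_lc.H18
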