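import Pool.Agent.MP_62ad46_lc.H18.Red

/-! Generic sets: a countably directed set computed by a generic set is computable. -/

set_option linter.unusedSectionVars false
set_option synthInstance.maxSize 100000

namespace Pool.Agent.MP_62ad46_lc.H18

variable {M : Type} [CommSemiring M] [LinearOrder M] [IsPA M]

/-- the support of the `i`-th member of the family coded by `p₀, p₁` -/
def supp (p₀ p₁ i : M) : Set M := {x | mem (pr i x) p₀ ∨ mem (pr i x) p₁}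

/-- `p₀, p₁` code an infinite family of finite partial functions with disjoint domains. -/
def Fam (c p₀ p₁ : M) : Prop :=
  c ∉ omega M ∧ (∀ i, i ≤ c → (supp p₀ p₁ i).Finite) ∧
    (∀ i, i ≤ c → ∀ x, mem (pr i x) p₀ → ¬ mem (pr i x) p₁) ∧
    ∀ i, i ≤ c → ∀ j, j ≤ c → ∀ x, x ∈ supp p₀ p₁ i → x ∈ supp p₀ p₁ j → i = j

/-- `R` extends a member of every such family. -/
def CG (R : Set M) : Prop :=
  ∀ c p₀ p₁, Fam c p₀ p₁ →
    ∃ i, i ≤ c ∧ (∀ x, mem (pr i x) p₀ → x ∈ R) ∧ ∀ x, mem (pr i x) p₁ → x ∉ R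

theorem CG.compl {R : Set M} (h : CG R) : CG Rᶜ := by
  rintro c p₀ p₁ ⟨h1, h2, h3, h4⟩
  have e : ∀ i, supp p₁ p₀ i = supp p₀ p₁ i := fun i => by ext x; simp [supp, or_comm]
  obtain ⟨i, hi, t1, t2⟩ := h c p₁ p₀ ⟨h1, fun i hi => e i ▸ h2 i hi,
    fun i hi x a b => h3 i hi x b a, fun i hi j hj x => by rw [e, e]; exact h4 i hi j hj x⟩
  exact ⟨i, hi, t2, fun x hx => not_not.2 (t1 x hx)⟩

theorem code_rows (N : ℕ) (S : ℕ → Set M) (hS : ∀ n, (S n).Finite) :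
    ∃ p : M, ∀ i x : M, mem (pr i x) p ↔ ∃ n ≤ N, i = n ∧ x ∈ S n := by
  obtain ⟨p, hp⟩ := exists_code_of_finite (S := ⋃ n ∈ Set.Iic N, (fun x => pr (n : M) x) '' S n)
    ((Set.finite_Iic N).biUnion fun n _ => (hS n).image _)
  refine ⟨p, fun i x => (hp _).trans ?_⟩
  simp only [Set.mem_iUnion, Set.mem_image, Set.mem_Iic, pr_inj]
  constructor
  · rintro ⟨n, hn, y, hy, rfl, rfl⟩; exact ⟨n, hn, rfl, hy⟩
  · rintro ⟨n, hn, rfl, hy⟩; exact ⟨n, hn, x, hy, rfl, rfl⟩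

theorem CG.finite (hS : Sat (Cardinal.aleph 1) M) {R : Set M} (h : CG R) {k : M} (hk : Sub k R) :
    {x | mem x k}.Finite := by
  by_contra hinf
  obtain ⟨e, he⟩ := exists_empty (M := M)
  let f := Set.Infinite.natEmbedding _ hinf
  obtain ⟨c, hc, H⟩ := overspill hS.nonstd
    (P := fun c => ∃ p, (∀ i, i ≤ c → ∃ x, mem x k ∧ ∀ y, mem (pr i y) p ↔ y = x) ∧
      ∀ i, i ≤ c → ∀ j, j ≤ c → ∀ x, mem (pr i x) p → mem (pr j x) p → i = j) (by exact ArI.out) fun N => by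
      obtain ⟨p, hp⟩ := code_rows N (fun n => {(f n : M)}) fun n => Set.finite_singleton _
      refine ⟨p, fun i hi => ?_, fun i hi j hj x h1 h2 => ?_⟩
      · obtain ⟨n, hn, rfl⟩ := exists_nat_of_le hi
        refine ⟨f n, (f n).2, fun y => (hp _ _).trans ⟨?_, fun h => ⟨n, hn, rfl, h⟩⟩⟩
        rintro ⟨m, -, hm, h⟩
        obtain rfl : n = m := by exact_mod_cast hm
        exact h
      · obtain ⟨n, -, rfl, hn⟩ := (hp _ _).1 h1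
        obtain ⟨m, -, rfl, hm⟩ := (hp _ _).1 h2
        have : f n = f m := Subtype.ext (hn.symm.trans hm)
        rw [f.injective this]
  obtain ⟨p, h1, h2⟩ := H c le_rfl
  have fin : ∀ i, i ≤ c → (supp e p i).Finite := fun i hi => by
    obtain ⟨x, -, hx'⟩ := h1 i hi
    exact (Set.finite_singleton x).subset fun y hy => (hx' y).1 (hy.resolve_left (he _))
  obtain ⟨i, hi, -, t⟩ := h c e p ⟨hc, fin, fun i _ x h => (he _ h).elim,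
    fun i hi j hj x a b => h2 i hi j hj x (a.resolve_left (he _)) (b.resolve_left (he _))⟩
  obtain ⟨x, hx, hx'⟩ := h1 i hi
  exact t x ((hx' x).2 rfl) (hk x hx)

/-- `q` is the code of a function whose values at the arguments below `j` cover row `i`. -/
def SmallRow (j p₀ p₁ i : M) : Prop :=
  ∃ q, (∀ t, t < q → ∀ x, mem (pr t x) q → ∀ y, mem (pr t y) q → x = y) ∧
    (∀ x, mem (pr i x) p₀ → ∃ t, t < j ∧ mem (pr t x) q) ∧
    ∀ x, mem (pr i x) p₁ → ∃ t, t < j ∧ mem (pr t x) q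

theorem SmallRow.finite {j : ℕ} {p₀ p₁ i : M} (h : SmallRow (j : M) p₀ p₁ i) :
    (supp p₀ p₁ i).Finite := by
  obtain ⟨q, h1, h2, h3⟩ := h
  have : supp p₀ p₁ i ⊆ ⋃ n ∈ Set.Iio j, {x | mem (pr (n : M) x) q} := by
    intro x hx
    obtain ⟨t, ht, h⟩ := hx.elim (h2 x) (h3 x)
    obtain ⟨n, hn, rfl⟩ := exists_nat_of_lt ht
    exact Set.mem_biUnion hn h
  refine ((Set.finite_Iio j).biUnion fun n _ => Set.Subsingleton.finite ?_).subset this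
  exact fun x hx y hy => h1 _ ((le_pr_left _ _).trans_lt (lt_of_mem hx)) x hx y hy

theorem smallRow_of_card {j : ℕ} {p₀ p₁ i : M} (hf : (supp p₀ p₁ i).Finite)
    (hc : (supp p₀ p₁ i).ncard ≤ j) : SmallRow (j : M) p₀ p₁ i := by
  classical
  let l := hf.toFinset.toList
  have hl : l.length ≤ j := by
    rw [Finset.length_toList, ← Set.ncard_eq_toFinset_card _ hf]; exact hc
  obtain ⟨q, hq⟩ := code_rows j (fun n => {x | l[n]? = some x}) fun n =>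
    Set.Subsingleton.finite fun x hx y hy => Option.some.inj (hx.symm.trans hy)
  have cov : ∀ x ∈ supp p₀ p₁ i, ∃ t, t < (j : M) ∧ mem (pr t x) q := by
    intro x hx
    have : x ∈ l := by simpa [l] using hx
    obtain ⟨n, hn⟩ := List.mem_iff_getElem?.1 this
    have hn' : n < j := ((List.getElem?_eq_some_iff.1 hn).1).trans_le hl
    exact ⟨n, by exact_mod_cast hn', (hq _ _).2 ⟨n, hn'.le, rfl, hn⟩⟩
  refine ⟨q, fun t _ x hx y hy => ?_, fun x hx => cov x (Or.inl hx), fun x hx => cov x (Or.inr hx)⟩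
  obtain ⟨n, -, rfl, hn⟩ := (hq _ _).1 hx
  obtain ⟨m, -, hm, hm'⟩ := (hq _ _).1 hy
  obtain rfl : n = m := by exact_mod_cast hm
  exact Option.some.inj (hn.symm.trans hm')

theorem S1.ball_nat {Q : M → (ℕ → M) → Prop} (N : ℕ) (h : ∀ n : ℕ, S1 fun v => Q n v) :
    S1 fun v => ∀ i, i ≤ (N : M) → Q i v := by
  induction N with
  | zero =>
    refine (h 0).congr fun v => ⟨fun H i hi => ?_, fun H => H _ le_rfl⟩
    obtain ⟨n, hn, rfl⟩ := exists_nat_of_le hi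
    obtain rfl := Nat.le_zero.1 hn
    exact H
  | succ N ih =>
    refine (ih.and (h (N + 1))).congr fun v => ⟨fun H i hi => ?_,
      fun H => ⟨fun i hi => H i (hi.trans (by exact_mod_cast N.le_succ)), H _ le_rfl⟩⟩
    rcases eq_or_lt_of_le hi with rfl | hi
    · exact H.2
    · rw [Nat.cast_succ, lt_succ_iff] at hi
      exact H.1 i hi

section
variable {A R : Set M} {C : M → M → M → M → Prop}

/-- `C` is a sound, complete and monotone `Σ₁` relation between neighbourhood conditions of `A`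
and of `R`. -/
structure Conf (A R : Set M) (C : M → M → M → M → Prop) : Prop where
  s1 : S1 fun v => C (v 0) (v 1) (v 2) (v 3)
  sound : ∀ {k₁ k₀ a b}, Sub a R → Sub b Rᶜ → C k₁ k₀ a b → Sub k₁ A ∧ Sub k₀ Aᶜ
  compl : ∀ {k₁ k₀}, Sub k₁ A → Sub k₀ Aᶜ → ∃ a b, Sub a R ∧ Sub b Rᶜ ∧ C k₁ k₀ a b
  mono : ∀ {k₁ k₀ a b k₁' k₀' a' b'}, C k₁ k₀ a b → sub k₁' k₁ → sub k₀' k₀ → sub a a' →
    sub b b' → C k₁' k₀' a' b'

theorem Red.conf (h : Red A R) : ∃ C, Conf A R C := by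
  obtain ⟨W, hW, eW⟩ := h
  have : S4 W := ⟨hW⟩
  refine ⟨fun k₁ k₀ a b => ∃ l₁ l₀ a₀ a₁ b₀ b₁, sub k₁ l₁ ∧ sub k₀ l₀ ∧ W l₁ 1 a₀ a₁ ∧
    W l₀ 0 b₀ b₁ ∧ sub a₀ a ∧ sub b₀ a ∧ sub a₁ b ∧ sub b₁ b, (by exact S1I.out), ?_, ?_, ?_⟩
  · rintro k₁ k₀ a b ha hb ⟨l₁, l₀, a₀, a₁, b₀, b₁, h1, h2, h3, h4, h5, h6, h7, h8⟩
    exact ⟨((eW l₁).1.2 ⟨a₀, a₁, ha.mono h5, hb.mono h7, h3⟩).mono h1,
      ((eW l₀).2.2 ⟨b₀, b₁, ha.mono h6, hb.mono h8, h4⟩).mono h2⟩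
  · intro k₁ k₀ h1 h0
    obtain ⟨a₀, a₁, p₀, p₁, ha⟩ := (eW k₁).1.1 h1
    obtain ⟨b₀, b₁, q₀, q₁, hb⟩ := (eW k₀).2.1 h0
    obtain ⟨h₀, r₀, r₁, r₂, -⟩ := union_sub p₀ q₀
    obtain ⟨h₁, t₀, t₁, t₂, -⟩ := union_sub p₁ q₁
    exact ⟨h₀, h₁, r₀, t₀, k₁, k₀, a₀, a₁, b₀, b₁, sub_refl _, sub_refl _, ha, hb, r₁, r₂, t₁, t₂⟩
  · rintro k₁ k₀ a b k₁' k₀' a' b' ⟨l₁, l₀, a₀, a₁, b₀, b₁, h1, h2, h3, h4, h5, h6, h7, h8⟩
      e1 e2 e3 e4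
    exact ⟨l₁, l₀, a₀, a₁, b₀, b₁, e1.trans h1, e2.trans h2, h3, h4, h5.trans e3, h6.trans e3,
      h7.trans e4, h8.trans e4⟩

/-- A `Σ₁` description of the neighbourhood conditions makes `A` computable. -/
theorem red_empty_of {T : M → M → Prop} (hT : S1 fun v => T (v 0) (v 1))
    (h : ∀ k₁ k₀, T k₁ k₀ ↔ Sub k₁ A ∧ Sub k₀ Aᶜ) : Red A ∅ := by
  have : S2 T := ⟨hT⟩
  obtain ⟨e, he⟩ := exists_empty (M := M)
  refine Red.mk (fun k _ _ => T k e) (fun k _ _ => T e k) (by exact S1I.out) (by exact S1I.out) (fun k => ?_)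
    fun k => ?_
  · exact ⟨fun H => ⟨e, e, sub_empty he _, sub_empty he _, (h _ _).2 ⟨H, sub_empty he _⟩⟩,
      fun ⟨_, _, _, _, H⟩ => ((h _ _).1 H).1⟩
  · exact ⟨fun H => ⟨e, e, sub_empty he _, sub_empty he _, (h _ _).2 ⟨sub_empty he _, H⟩⟩,
      fun ⟨_, _, _, _, H⟩ => ((h _ _).1 H).2⟩

/-- the part of the condition `(a, b)` outside `(r₀, r₁)` -/
def petal (r₀ r₁ a b : M) : Set M := {x | (mem x a ∨ mem x b) ∧ ¬ mem x r₀ ∧ ¬ mem x r₁}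

/-- every condition of `A` is confirmed using at most `j` points outside the root -/
def Root (A R : Set M) (C : M → M → M → M → Prop) (j : ℕ) (r₀ r₁ : M) : Prop :=
  ∀ k₁ k₀, Sub k₁ A → Sub k₀ Aᶜ → ∃ a b, Sub a R ∧ Sub b Rᶜ ∧ C k₁ k₀ a b ∧
    (petal r₀ r₁ a b).ncard ≤ j

/-- `(k₁, k₀)` is confirmed by `c + 1` conditions with disjoint small petals -/
def Big (C : M → M → M → M → Prop) (j r₀ r₁ k₁ k₀ c : M) : Prop :=
  ∃ p₀ p₁, (∀ i, i ≤ c → (∃ a b, C k₁ k₀ a b ∧ (∀ x, mem x a → mem x r₀ ∨ mem (pr i x) p₀) ∧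
      ∀ x, mem x b → mem x r₁ ∨ mem (pr i x) p₁) ∧ SmallRow j p₀ p₁ i) ∧
    (∀ i, i ≤ c → ∀ x, mem (pr i x) p₀ → ¬ mem (pr i x) p₁) ∧
    (∀ i, i ≤ c → ∀ i', i' ≤ c → ∀ x, mem (pr i x) p₀ → mem (pr i' x) p₀ ∨ mem (pr i' x) p₁ →
      i = i') ∧
    ∀ i, i ≤ c → ∀ i', i' ≤ c → ∀ x, mem (pr i x) p₁ → mem (pr i' x) p₀ ∨ mem (pr i' x) p₁ →
      i = i'

theorem Big.mono {j r₀ r₁ k₁ k₀ c c' : M} (h : Big C j r₀ r₁ k₁ k₀ c) (hc : c' ≤ c) :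
    Big C j r₀ r₁ k₁ k₀ c' := by
  obtain ⟨p₀, p₁, h1, h2, h3, h4⟩ := h
  exact ⟨p₀, p₁, fun i hi => h1 i (hi.trans hc), fun i hi => h2 i (hi.trans hc),
    fun i hi i' hi' => h3 i (hi.trans hc) i' (hi'.trans hc),
    fun i hi i' hi' => h4 i (hi.trans hc) i' (hi'.trans hc)⟩

theorem Big.ar (hC : Conf A R C) (j r₀ r₁ : M) :
    Ar fun v => Big C j r₀ r₁ (v 0) (v 1) (v 2) := by
  have : Ar4 C := ⟨hC.s1.ar⟩
  unfold Big SmallRow
  exact ArI.out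

theorem Big.s1 (hC : Conf A R C) (j r₀ r₁ : M) (N : ℕ) :
    S1 fun v => Big C j r₀ r₁ (v 0) (v 1) N := by
  have : S4 C := ⟨hC.s1⟩
  unfold Big SmallRow
  refine S1.ex' (S1.ex' (S1.and (S1.ball_nat N fun n => ?_) ?_))
  · beta_reduce
    exact S1I.out
  · beta_reduce
    exact S1I.out

theorem Big.sound (hC : Conf A R C) (hR : CG R) {j : ℕ} {r₀ r₁ k₁ k₀ c : M} (h0 : Sub r₀ R)
    (h1 : Sub r₁ Rᶜ) (hc : c ∉ omega M) (h : Big C j r₀ r₁ k₁ k₀ c) : Sub k₁ A ∧ Sub k₀ Aᶜ := by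
  obtain ⟨p₀, p₁, e1, e2, e3, e4⟩ := h
  obtain ⟨i, hi, t0, t1⟩ := hR c p₀ p₁ ⟨hc, fun i hi => (e1 i hi).2.finite, e2,
    fun i hi i' hi' x hx hx' => hx.elim (fun hx => e3 i hi i' hi' x hx hx')
      fun hx => e4 i hi i' hi' x hx hx'⟩
  obtain ⟨⟨a, b, h, ha, hb⟩, -⟩ := e1 i hi
  exact hC.sound (fun x hx => (ha x hx).elim (h0 x) (t0 x))
    (fun x hx => (hb x hx).elim (h1 x) (t1 x)) h

theorem petal_finite (hS : Sat (Cardinal.aleph 1) M) (hR : CG R) {r₀ r₁ a b : M} (ha : Sub a R)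
    (hb : Sub b Rᶜ) : (petal r₀ r₁ a b).Finite :=
  ((hR.finite hS ha).union (hR.compl.finite hS hb)).subset fun _ hx => hx.1

theorem exists_petals (hS : Sat (Cardinal.aleph 1) M) (hC : Conf A R C) (hR : CG R) {j : ℕ}
    {r₀ r₁ : M} (h0 : Sub r₀ R) (h1 : Sub r₁ Rᶜ) (hj : Root A R C (j + 1) r₀ r₁)
    (hn : ∀ s₀ s₁, Sub s₀ R → Sub s₁ Rᶜ → ¬ Root A R C j s₀ s₁) {k₁ k₀ : M} (t₁ : Sub k₁ A)
    (t₀ : Sub k₀ Aᶜ) : ∃ a b : ℕ → M, (∀ n, Sub (a n) R ∧ Sub (b n) Rᶜ ∧ C k₁ k₀ (a n) (b n) ∧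
      (petal r₀ r₁ (a n) (b n)).ncard ≤ j + 1) ∧
      ∀ n m x, x ∈ petal r₀ r₁ (a n) (b n) → x ∈ petal r₀ r₁ (a m) (b m) → n = m := by
  have step : ∀ s : {s : M × M // Sub s.1 R ∧ Sub s.2 Rᶜ ∧ sub r₀ s.1 ∧ sub r₁ s.2},
      ∃ (a b : M) (s' : {s : M × M // Sub s.1 R ∧ Sub s.2 Rᶜ ∧ sub r₀ s.1 ∧ sub r₁ s.2}),
        (Sub a R ∧ Sub b Rᶜ ∧ C k₁ k₀ a b ∧ (petal r₀ r₁ a b).ncard ≤ j + 1) ∧
        (∀ x ∈ petal r₀ r₁ a b, ¬ mem x s.1.1 ∧ ¬ mem x s.1.2) ∧ sub a s'.1.1 ∧ sub b s'.1.2 ∧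
        sub s.1.1 s'.1.1 ∧ sub s.1.2 s'.1.2 := by
    rintro ⟨⟨s₀, s₁⟩, q₀, q₁, q₂, q₃⟩
    have := hn s₀ s₁ q₀ q₁
    simp only [Root, not_forall] at this
    obtain ⟨l₁, l₀, u₁, u₀, hl⟩ := this
    obtain ⟨m₁, v₁, w₁, w₁', -⟩ := union_sub t₁ u₁
    obtain ⟨m₀, v₀, w₀, w₀', -⟩ := union_sub t₀ u₀
    obtain ⟨a, b, ha, hb, hc, hcard⟩ := hj m₁ m₀ v₁ v₀
    have hlt : j < (petal s₀ s₁ a b).ncard := by
      by_contra hle
      exact hl ⟨a, b, ha, hb, hC.mono hc w₁' w₀' (sub_refl _) (sub_refl _), not_lt.1 hle⟩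
    have hsub : petal s₀ s₁ a b ⊆ petal r₀ r₁ a b :=
      fun x hx => ⟨hx.1, fun h => hx.2.1 (q₂ x h), fun h => hx.2.2 (q₃ x h)⟩
    have heq : petal s₀ s₁ a b = petal r₀ r₁ a b :=
      Set.eq_of_subset_of_ncard_le hsub (hcard.trans hlt) (petal_finite hS hR ha hb)
    obtain ⟨s₀', y₀, y₁, y₂, -⟩ := union_sub q₀ ha
    obtain ⟨s₁', z₀, z₁, z₂, -⟩ := union_sub q₁ hb
    refine ⟨a, b, ⟨(s₀', s₁'), y₀, z₀, q₂.trans y₁, q₃.trans z₁⟩,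
      ⟨ha, hb, hC.mono hc w₁ w₀ (sub_refl _) (sub_refl _), hcard⟩, fun x hx => ?_, y₂, z₂, y₁, z₁⟩
    rw [← heq] at hx
    exact hx.2
  choose fa fb fs f1 f2 f3 f4 f5 f6 using step
  let s : ℕ → {s : M × M // Sub s.1 R ∧ Sub s.2 Rᶜ ∧ sub r₀ s.1 ∧ sub r₁ s.2} :=
    fun n => fs^[n] ⟨(r₀, r₁), h0, h1, sub_refl _, sub_refl _⟩
  have hs : ∀ n, s (n + 1) = fs (s n) := fun n => Function.iterate_succ_apply' _ _ _
  have inc : ∀ n m, n ≤ m → sub (s n).1.1 (s m).1.1 ∧ sub (s n).1.2 (s m).1.2 := by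
    intro n m h
    induction m, h using Nat.le_induction with
    | base => exact ⟨sub_refl _, sub_refl _⟩
    | succ m _ ih => rw [hs]; exact ⟨ih.1.trans (f5 _), ih.2.trans (f6 _)⟩
  have key : ∀ n m x, n < m → x ∈ petal r₀ r₁ (fa (s n)) (fb (s n)) →
      x ∈ petal r₀ r₁ (fa (s m)) (fb (s m)) → False := by
    intro n m x h hx hx'
    have i1 := inc (n + 1) m h
    rw [hs] at i1
    rcases hx.1 with h' | h'
    · exact (f2 _ x hx').1 (i1.1 x (f3 _ x h'))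
    · exact (f2 _ x hx').2 (i1.2 x (f4 _ x h'))
  refine ⟨fun n => fa (s n), fun n => fb (s n), fun n => f1 _, fun n m x hx hx' => ?_⟩
  rcases lt_trichotomy n m with h | h | h
  · exact (key n m x h hx hx').elim
  · exact h
  · exact (key m n x h hx' hx).elim

theorem big_of_petals (hS : Sat (Cardinal.aleph 1) M) (hR : CG R) {j : ℕ}
    {r₀ r₁ k₁ k₀ : M} (h0 : Sub r₀ R) (h1 : Sub r₁ Rᶜ) {a b : ℕ → M}
    (e1 : ∀ n, Sub (a n) R ∧ Sub (b n) Rᶜ ∧ C k₁ k₀ (a n) (b n) ∧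
      (petal r₀ r₁ (a n) (b n)).ncard ≤ j)
    (e2 : ∀ n m x, x ∈ petal r₀ r₁ (a n) (b n) → x ∈ petal r₀ r₁ (a m) (b m) → n = m) (N : ℕ) :
    Big C j r₀ r₁ k₁ k₀ N := by
  have fin := fun n => petal_finite (r₀ := r₀) (r₁ := r₁) hS hR (e1 n).1 (e1 n).2.1
  obtain ⟨p₀, hp₀⟩ := code_rows N (fun n => petal r₀ r₁ (a n) (b n) ∩ R)
    fun n => (fin n).inter_of_left _
  obtain ⟨p₁, hp₁⟩ := code_rows N (fun n => petal r₀ r₁ (a n) (b n) ∩ Rᶜ)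
    fun n => (fin n).inter_of_left _
  have row : ∀ n ≤ N, supp p₀ p₁ n = petal r₀ r₁ (a n) (b n) := by
    intro n hn
    ext x
    constructor
    · rintro (h | h)
      · obtain ⟨m, -, hm, h⟩ := (hp₀ _ _).1 h
        obtain rfl : n = m := by exact_mod_cast hm
        exact h.1
      · obtain ⟨m, -, hm, h⟩ := (hp₁ _ _).1 h
        obtain rfl : n = m := by exact_mod_cast hm
        exact h.1
    · intro h
      by_cases hx : x ∈ R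
      · exact Or.inl ((hp₀ _ _).2 ⟨n, hn, rfl, h, hx⟩)
      · exact Or.inr ((hp₁ _ _).2 ⟨n, hn, rfl, h, hx⟩)
  have disj : ∀ i, i ≤ (N : M) → ∀ i', i' ≤ (N : M) → ∀ x, x ∈ supp p₀ p₁ i →
      x ∈ supp p₀ p₁ i' → i = i' := by
    intro i hi i' hi' x hx hx'
    obtain ⟨n, hn, rfl⟩ := exists_nat_of_le hi
    obtain ⟨m, hm, rfl⟩ := exists_nat_of_le hi'
    rw [row n hn] at hx
    rw [row m hm] at hx'
    rw [e2 n m x hx hx']
  refine ⟨p₀, p₁, fun i hi => ?_, fun i _ x u₀ u₁ => ?_,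
    fun i hi i' hi' x hx hx' => disj i hi i' hi' x (Or.inl hx) hx',
    fun i hi i' hi' x hx hx' => disj i hi i' hi' x (Or.inr hx) hx'⟩
  · obtain ⟨n, hn, rfl⟩ := exists_nat_of_le hi
    refine ⟨⟨a n, b n, (e1 n).2.2.1, fun x hx => ?_, fun x hx => ?_⟩,
      smallRow_of_card (row n hn ▸ fin n) (row n hn ▸ (e1 n).2.2.2)⟩
    · by_cases h : mem x r₀
      · exact Or.inl h
      · have hxR := (e1 n).1 x hx
        exact Or.inr ((hp₀ _ _).2 ⟨n, hn, rfl, ⟨Or.inl hx, h, fun h' => h1 x h' hxR⟩, hxR⟩)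
    · by_cases h : mem x r₁
      · exact Or.inl h
      · have hxR := (e1 n).2.1 x hx
        exact Or.inr ((hp₁ _ _).2 ⟨n, hn, rfl, ⟨Or.inr hx, fun h' => hxR (h0 x h'), h⟩, hxR⟩)
  · obtain ⟨_, -, -, h⟩ := (hp₀ _ _).1 u₀
    obtain ⟨_, -, -, h'⟩ := (hp₁ _ _).1 u₁
    exact h'.2 h.2

/-- If the true conditions are those with a nonstandard value of a definable monotone `B`, and `B`
is `Σ₁` at standard values, then `A` is computable. -/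
theorem red_empty_of_big (hS : Sat (Cardinal.aleph 1) M) {B : M → M → M → Prop}
    (hB : Ar fun v => B (v 0) (v 1) (v 2)) (hB1 : ∀ N : ℕ, S1 fun v => B (v 0) (v 1) N)
    (mono : ∀ {k₁ k₀ c c'}, B k₁ k₀ c → c' ≤ c → B k₁ k₀ c')
    (sound : ∀ {k₁ k₀ c}, c ∉ omega M → B k₁ k₀ c → Sub k₁ A ∧ Sub k₀ Aᶜ)
    (compl : ∀ {k₁ k₀}, Sub k₁ A → Sub k₀ Aᶜ → ∀ N : ℕ, B k₁ k₀ N) : Red A ∅ := by
  have : Ar3 B := ⟨hB⟩
  obtain ⟨e, he⟩ := exists_empty (M := M)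
  have big : ∀ {k₁ k₀}, Sub k₁ A → Sub k₀ Aᶜ → ∃ c, c ∉ omega M ∧ B k₁ k₀ c := by
    intro k₁ k₀ h1 h0
    obtain ⟨c, hc, H⟩ := overspill hS.nonstd (P := fun c => B k₁ k₀ c) (by exact ArI.out) (compl h1 h0)
    exact ⟨c, hc, H c le_rfl⟩
  have hdef : ∀ x, x ∈ A ↔ ∃ c, (∃ s, mem x s ∧ B s e c) ∧ ¬ ∃ s, mem x s ∧ B e s c := by
    intro x
    obtain ⟨s, hs⟩ := exists_single x
    constructor
    · intro hx
      obtain ⟨c, hc, H⟩ := big (k₁ := s) (fun y hy => (hs y).1 hy ▸ hx) (sub_empty he _)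
      exact ⟨c, ⟨s, (hs x).2 rfl, H⟩, fun ⟨t, ht, H'⟩ => (sound hc H').2 x ht hx⟩
    · rintro ⟨c, ⟨t, ht, H⟩, H'⟩
      by_contra hx
      obtain ⟨c', hc', H''⟩ := big (k₀ := s) (sub_empty he _) fun y hy => (hs y).1 hy ▸ hx
      by_cases hc : c ∈ omega M
      · exact H' ⟨s, (hs x).2 rfl, mono H'' (le_of_nonstd hc hc')⟩
      · exact hx ((sound hc H).1 x ht)
  have hA : Ar fun v => v 0 ∈ A :=
    Ar.congr (P := fun v => ∃ c, (∃ s, mem (v 0) s ∧ B s e c) ∧ ¬ ∃ s, mem (v 0) s ∧ B e s c)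
      (by exact ArI.out) fun v => (hdef _).symm
  have hA' : Ar fun v => (fun x => x ∈ A) (v 0) := hA
  obtain ⟨N, hN⟩ : ∃ N : ℕ, ∀ k₁ k₀, B k₁ k₀ N → Sub k₁ A ∧ Sub k₀ Aᶜ := by
    by_contra hn
    push Not at hn
    obtain ⟨c, hc, H⟩ := overspill hS.nonstd
      (P := fun c => ∃ k₁ k₀, B k₁ k₀ c ∧ ¬ ((∀ x, mem x k₁ → (fun x => x ∈ A) x) ∧
        ∀ x, mem x k₀ → ¬ (fun x => x ∈ A) x)) (by generalize (fun x => x ∈ A) = P at hA'; have : Ar1 P := ⟨hA'⟩; exact ArI.out)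
      fun n => by
        obtain ⟨k₁, k₀, h1, h2⟩ := hn n
        exact ⟨k₁, k₀, h1, fun h => h2 h.1 h.2⟩
    obtain ⟨k₁, k₀, h1, h2⟩ := H c le_rfl
    exact h2 (sound hc h1)
  exact red_empty_of (T := fun k₁ k₀ => B k₁ k₀ N) (hB1 N)
    fun k₁ k₀ => ⟨hN k₁ k₀, fun h => compl h.1 h.2 N⟩

/-- A countably directed set below a generic set is computable. -/
theorem red_empty_of_cg (hS : Sat (Cardinal.aleph 1) M) (hA : Dir A) (hR : CG R) (h : Red A R) :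
    Red A ∅ := by
  classical
  obtain ⟨C, hC⟩ := h.conf
  obtain ⟨e, he⟩ := exists_empty (M := M)
  have ex : ∃ j, ∃ r₀ r₁, Sub r₀ R ∧ Sub r₁ Rᶜ ∧ Root A R C j r₀ r₁ := by
    by_contra hn
    push Not at hn
    have := fun j => hn j e e (sub_empty he _) (sub_empty he _)
    simp only [Root, not_forall] at this
    choose k₁ k₀ t₁ t₀ hk using this
    obtain ⟨l₁, l₀, u₁, u₀, w₁, w₀⟩ := hA k₁ k₀ t₁ t₀
    obtain ⟨a, b, ha, hb, hc⟩ := hC.compl u₁ u₀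
    exact hk _ ⟨a, b, ha, hb, hC.mono hc (w₁ _) (w₀ _) (sub_refl _) (sub_refl _), le_rfl⟩
  obtain ⟨r₀, r₁, h0, h1, hj⟩ := Nat.find_spec ex
  rcases hf : Nat.find ex with _ | j
  · rw [hf] at hj
    have : S4 C := ⟨hC.s1⟩
    refine red_empty_of (T := fun k₁ k₀ => C k₁ k₀ r₀ r₁) (by exact S1I.out)
      fun k₁ k₀ => ⟨hC.sound h0 h1, fun h => ?_⟩
    obtain ⟨a, b, ha, hb, hc, hcard⟩ := hj k₁ k₀ h.1 h.2
    have hemp : petal r₀ r₁ a b = ∅ :=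
      (Set.ncard_eq_zero (petal_finite hS hR ha hb)).1 (Nat.le_zero.1 hcard)
    refine hC.mono hc (sub_refl _) (sub_refl _) (fun x hx => ?_) fun x hx => ?_
    · by_contra hx'
      have : x ∈ petal r₀ r₁ a b := ⟨Or.inl hx, hx', fun h' => h1 x h' (ha x hx)⟩
      simp [hemp] at this
    · by_contra hx'
      have : x ∈ petal r₀ r₁ a b := ⟨Or.inr hx, fun h' => hb x hx (h0 x h'), hx'⟩
      simp [hemp] at this
  · rw [hf] at hj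
    have hn : ∀ s₀ s₁, Sub s₀ R → Sub s₁ Rᶜ → ¬ Root A R C j s₀ s₁ := fun s₀ s₁ q₀ q₁ q =>
      Nat.find_min ex (m := j) (by omega) ⟨s₀, s₁, q₀, q₁, q⟩
    refine red_empty_of_big hS (B := Big C ((j + 1 : ℕ) : M) r₀ r₁) (Big.ar hC _ _ _)
      (Big.s1 hC _ _ _) Big.mono (fun hc h => h.sound hC hR h0 h1 hc) fun t₁ t₀ N => ?_
    obtain ⟨a, b, e1, e2⟩ := exists_petals hS hC hR h0 h1 hj hn t₁ t₀
    exact big_of_petals hS hR h0 h1 e1 e2 N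

end

end Pool.Agent.MP_62ad46_lc.H18
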