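import Pool.Agent.MP_62ad46_lc.H18.Defs

/-! Closure properties of the definable relations. -/

set_option linter.unusedSectionVars false

namespace Pool.Agent.MP_62ad46_lc.H18

variable {M : Type} [CommSemiring M] [LinearOrder M]

@[simp] theorem cons_zero (x : M) (v : ℕ → M) : cons x v 0 = x := rfl
@[simp] theorem cons_succ (x : M) (v : ℕ → M) (n : ℕ) : cons x v (n + 1) = v n := rfl

omit [LinearOrder M] in
theorem Tm.subst {s : (ℕ → M) → M} (hs : Tm s) {t : ℕ → (ℕ → M) → M} (ht : ∀ i, Tm (t i)) :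
    Tm fun v => s fun i => t i v := by
  induction hs with
  | var i => exact ht i
  | const c => exact Tm.const c
  | add _ _ h1 h2 => exact Tm.add h1 h2
  | mul _ _ h1 h2 => exact Tm.mul h1 h2

/-- lifting a substitution under a quantifier -/
def lift (t : ℕ → (ℕ → M) → M) : ℕ → (ℕ → M) → M
  | 0 => fun w => w 0
  | i + 1 => fun w => t i fun j => w (j + 1)

omit [LinearOrder M] in
theorem lift_tm {t : ℕ → (ℕ → M) → M} (ht : ∀ i, Tm (t i)) : ∀ i, Tm (lift t i)
  | 0 => Tm.var 0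
  | i + 1 => (ht i).subst (t := fun j w => w (j + 1)) fun j => Tm.var (j + 1)

omit [CommSemiring M] [LinearOrder M] in
theorem lift_cons (t : ℕ → (ℕ → M) → M) (x : M) (v : ℕ → M) :
    (fun i => lift t i (cons x v)) = cons x fun i => t i v := by
  funext i
  cases i <;> rfl

theorem Ar.congr {P Q : (ℕ → M) → Prop} (h : Ar P) (e : ∀ v, P v ↔ Q v) : Ar Q := by
  have : P = Q := funext fun v => propext (e v)
  exact this ▸ h

theorem D0.congr {P Q : (ℕ → M) → Prop} (h : D0 P) (e : ∀ v, P v ↔ Q v) : D0 Q := by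
  have : P = Q := funext fun v => propext (e v)
  exact this ▸ h

theorem S1.congr {P Q : (ℕ → M) → Prop} (h : S1 P) (e : ∀ v, P v ↔ Q v) : S1 Q := by
  have : P = Q := funext fun v => propext (e v)
  exact this ▸ h

theorem Ar.subst {P : (ℕ → M) → Prop} (h : Ar P) : ∀ {t : ℕ → (ℕ → M) → M}, (∀ i, Tm (t i)) →
    Ar fun v => P fun i => t i v := by
  induction h with
  | eq h1 h2 => exact fun ht => Ar.eq (h1.subst ht) (h2.subst ht)
  | lt h1 h2 => exact fun ht => Ar.lt (h1.subst ht) (h2.subst ht)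
  | not _ ih => exact fun ht => Ar.not (ih ht)
  | and _ _ h1 h2 => exact fun ht => Ar.and (h1 ht) (h2 ht)
  | ex _ ih =>
    intro t ht
    exact (Ar.ex (ih (lift_tm ht))).congr fun v => by simp only [lift_cons]

theorem D0.subst {P : (ℕ → M) → Prop} (h : D0 P) : ∀ {t : ℕ → (ℕ → M) → M}, (∀ i, Tm (t i)) →
    D0 fun v => P fun i => t i v := by
  induction h with
  | eq h1 h2 => exact fun ht => D0.eq (h1.subst ht) (h2.subst ht)
  | lt h1 h2 => exact fun ht => D0.lt (h1.subst ht) (h2.subst ht)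
  | not _ ih => exact fun ht => D0.not (ih ht)
  | and _ _ h1 h2 => exact fun ht => D0.and (h1 ht) (h2 ht)
  | bex h1 _ ih =>
    intro t ht
    exact (D0.bex (h1.subst ht) (ih (lift_tm ht))).congr fun v => by simp only [lift_cons]

theorem S1.subst {P : (ℕ → M) → Prop} (h : S1 P) : ∀ {t : ℕ → (ℕ → M) → M}, (∀ i, Tm (t i)) →
    S1 fun v => P fun i => t i v := by
  induction h with
  | d0 h => exact fun ht => S1.d0 (h.subst ht)
  | ex _ ih =>
    intro t ht
    exact (S1.ex (ih (lift_tm ht))).congr fun v => by simp only [lift_cons]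

theorem D0.ar {P : (ℕ → M) → Prop} (h : D0 P) : Ar P := by
  induction h with
  | eq h1 h2 => exact Ar.eq h1 h2
  | lt h1 h2 => exact Ar.lt h1 h2
  | not _ ih => exact Ar.not ih
  | and _ _ h1 h2 => exact Ar.and h1 h2
  | @bex t P h1 _ ih =>
    have : Ar fun w => w 0 < t (fun j => w (j + 1)) ∧ P w :=
      Ar.and (Ar.lt (Tm.var 0) (h1.subst (t := fun j w => w (j + 1)) fun j => Tm.var _)) ih
    exact (Ar.ex this).congr fun v => Iff.rfl

theorem S1.ar {P : (ℕ → M) → Prop} (h : S1 P) : Ar P := by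
  induction h with
  | d0 h => exact h.ar
  | ex _ ih => exact Ar.ex ih

/-! ### `Ar` rules in pattern form -/

theorem Ar.ex' {Q : M → (ℕ → M) → Prop} (h : Ar fun w => Q (w 0) fun i => w (i + 1)) :
    Ar fun v => ∃ x, Q x v := Ar.ex h

theorem Ar.or {P Q : (ℕ → M) → Prop} (h1 : Ar P) (h2 : Ar Q) : Ar fun v => P v ∨ Q v :=
  (Ar.not (Ar.and h1.not h2.not)).congr fun v => by tauto

theorem Ar.imp {P Q : (ℕ → M) → Prop} (h1 : Ar P) (h2 : Ar Q) : Ar fun v => P v → Q v :=
  (Ar.not (Ar.and h1 h2.not)).congr fun v => by tauto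

theorem Ar.iff {P Q : (ℕ → M) → Prop} (h1 : Ar P) (h2 : Ar Q) : Ar fun v => P v ↔ Q v :=
  (Ar.and (h1.imp h2) (h2.imp h1)).congr fun v => by tauto

theorem Ar.all' {Q : M → (ℕ → M) → Prop} (h : Ar fun w => Q (w 0) fun i => w (i + 1)) :
    Ar fun v => ∀ x, Q x v :=
  (Ar.not (Ar.ex' (Q := fun x v => ¬ Q x v) h.not)).congr fun v => by simp

theorem Ar.le {s t : (ℕ → M) → M} (h1 : Tm s) (h2 : Tm t) : Ar fun v => s v ≤ t v :=
  (Ar.not (Ar.lt h2 h1)).congr fun v => by simp

theorem Ar.ne {s t : (ℕ → M) → M} (h1 : Tm s) (h2 : Tm t) : Ar fun v => s v ≠ t v :=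
  Ar.not (Ar.eq h1 h2)

theorem Ar.const (p : Prop) : Ar fun _ : ℕ → M => p := by
  by_cases h : p
  · exact (Ar.eq (Tm.const 0) (Tm.const 0)).congr fun v => by simp [h]
  · exact (Ar.not (Ar.eq (Tm.const 0) (Tm.const 0))).congr fun v => by simp [h]

theorem Ar.dvd {s t : (ℕ → M) → M} (h1 : Tm s) (h2 : Tm t) : Ar fun v => s v ∣ t v :=
  Ar.ex' (Q := fun x v => t v = s v * x)
    (Ar.eq (h2.subst (t := fun j w => w (j + 1)) fun _ => Tm.var _)
      (Tm.mul (h1.subst (t := fun j w => w (j + 1)) fun _ => Tm.var _) (Tm.var 0)))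

/-! ### `D0` rules in pattern form -/

theorem D0.bex' {t : (ℕ → M) → M} {Q : M → (ℕ → M) → Prop} (ht : Tm t)
    (h : D0 fun w => Q (w 0) fun i => w (i + 1)) : D0 fun v => ∃ x, x < t v ∧ Q x v :=
  D0.bex ht h

theorem D0.or {P Q : (ℕ → M) → Prop} (h1 : D0 P) (h2 : D0 Q) : D0 fun v => P v ∨ Q v :=
  (D0.not (D0.and h1.not h2.not)).congr fun v => by tauto

theorem D0.imp {P Q : (ℕ → M) → Prop} (h1 : D0 P) (h2 : D0 Q) : D0 fun v => P v → Q v :=
  (D0.not (D0.and h1 h2.not)).congr fun v => by tauto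

theorem D0.iff {P Q : (ℕ → M) → Prop} (h1 : D0 P) (h2 : D0 Q) : D0 fun v => P v ↔ Q v :=
  (D0.and (h1.imp h2) (h2.imp h1)).congr fun v => by tauto

theorem D0.ball' {t : (ℕ → M) → M} {Q : M → (ℕ → M) → Prop} (ht : Tm t)
    (h : D0 fun w => Q (w 0) fun i => w (i + 1)) : D0 fun v => ∀ x, x < t v → Q x v :=
  (D0.not (D0.bex' (Q := fun x v => ¬ Q x v) ht h.not)).congr fun v => by simp

theorem D0.le {s t : (ℕ → M) → M} (h1 : Tm s) (h2 : Tm t) : D0 fun v => s v ≤ t v :=
  (D0.not (D0.lt h2 h1)).congr fun v => by simp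

theorem D0.ne {s t : (ℕ → M) → M} (h1 : Tm s) (h2 : Tm t) : D0 fun v => s v ≠ t v :=
  D0.not (D0.eq h1 h2)

theorem D0.const (p : Prop) : D0 fun _ : ℕ → M => p := by
  by_cases h : p
  · exact (D0.eq (Tm.const 0) (Tm.const 0)).congr fun v => by simp [h]
  · exact (D0.not (D0.eq (Tm.const 0) (Tm.const 0))).congr fun v => by simp [h]

/-! ### `S1` rules in pattern form -/

theorem S1.ex' {Q : M → (ℕ → M) → Prop} (h : S1 fun w => Q (w 0) fun i => w (i + 1)) :
    S1 fun v => ∃ x, Q x v := S1.ex h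

theorem S1.shift {P : (ℕ → M) → Prop} (h : S1 P) : S1 fun w => P fun i => w (i + 1) :=
  h.subst (t := fun j w => w (j + 1)) fun _ => Tm.var _

theorem D0.shift {P : (ℕ → M) → Prop} (h : D0 P) : D0 fun w => P fun i => w (i + 1) :=
  h.subst (t := fun j w => w (j + 1)) fun _ => Tm.var _

theorem S1.and_d0 {Q : (ℕ → M) → Prop} (h2 : S1 Q) : ∀ {P : (ℕ → M) → Prop}, D0 P →
    S1 fun v => P v ∧ Q v := by
  induction h2 with
  | d0 h => exact fun h1 => S1.d0 (D0.and h1 h)
  | ex _ ih =>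
    intro P h1
    exact (S1.ex (ih h1.shift)).congr fun v => by simp [exists_and_left]

theorem S1.and {P : (ℕ → M) → Prop} (h1 : S1 P) : ∀ {Q : (ℕ → M) → Prop}, S1 Q →
    S1 fun v => P v ∧ Q v := by
  induction h1 with
  | d0 h => exact fun h2 => h2.and_d0 h
  | ex _ ih =>
    intro Q h2
    exact (S1.ex (ih h2.shift)).congr fun v => by simp [exists_and_right]

theorem S1.or_d0 {Q : (ℕ → M) → Prop} (h2 : S1 Q) : ∀ {P : (ℕ → M) → Prop}, D0 P →
    S1 fun v => P v ∨ Q v := by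
  induction h2 with
  | d0 h => exact fun h1 => S1.d0 (D0.or h1 h)
  | ex _ ih =>
    intro P h1
    exact (S1.ex (ih h1.shift)).congr fun v => by
      have : Nonempty M := ⟨0⟩
      simp [exists_or]

theorem S1.or {P : (ℕ → M) → Prop} (h1 : S1 P) : ∀ {Q : (ℕ → M) → Prop}, S1 Q →
    S1 fun v => P v ∨ Q v := by
  induction h1 with
  | d0 h => exact fun h2 => h2.or_d0 h
  | ex _ ih =>
    intro Q h2
    exact (S1.ex (ih h2.shift)).congr fun v => by
      have : Nonempty M := ⟨0⟩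
      simp [exists_or]

/-- substitution into a four-place `Σ₁` relation -/
theorem S1.app4 {W : M → M → M → M → Prop} (hW : S1 fun v => W (v 0) (v 1) (v 2) (v 3))
    {a b c d : (ℕ → M) → M} (ha : Tm a) (hb : Tm b) (hc : Tm c) (hd : Tm d) :
    S1 fun v => W (a v) (b v) (c v) (d v) :=
  hW.subst (t := fun i => match i with | 0 => a | 1 => b | 2 => c | _ => d) fun i =>
    match i with | 0 => ha | 1 => hb | 2 => hc | _ + 3 => hd

theorem Ar.app4 {W : M → M → M → M → Prop} (hW : Ar fun v => W (v 0) (v 1) (v 2) (v 3))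
    {a b c d : (ℕ → M) → M} (ha : Tm a) (hb : Tm b) (hc : Tm c) (hd : Tm d) :
    Ar fun v => W (a v) (b v) (c v) (d v) :=
  hW.subst (t := fun i => match i with | 0 => a | 1 => b | 2 => c | _ => d) fun i =>
    match i with | 0 => ha | 1 => hb | 2 => hc | _ + 3 => hd

theorem Ar.app3 {W : M → M → M → Prop} (hW : Ar fun v => W (v 0) (v 1) (v 2))
    {a b c : (ℕ → M) → M} (ha : Tm a) (hb : Tm b) (hc : Tm c) :
    Ar fun v => W (a v) (b v) (c v) :=
  hW.subst (t := fun i => match i with | 0 => a | 1 => b | _ => c) fun i =>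
    match i with | 0 => ha | 1 => hb | _ + 2 => hc

theorem Ar.app2 {W : M → M → Prop} (hW : Ar fun v => W (v 0) (v 1))
    {a b : (ℕ → M) → M} (ha : Tm a) (hb : Tm b) : Ar fun v => W (a v) (b v) :=
  hW.subst (t := fun i => match i with | 0 => a | _ => b) fun i =>
    match i with | 0 => ha | _ + 1 => hb

theorem Ar.app1 {W : M → Prop} (hW : Ar fun v => W (v 0))
    {a : (ℕ → M) → M} (ha : Tm a) : Ar fun v => W (a v) :=
  hW.subst (t := fun _ => a) fun _ => ha

theorem S1.app2 {W : M → M → Prop} (hW : S1 fun v => W (v 0) (v 1))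
    {a b : (ℕ → M) → M} (ha : Tm a) (hb : Tm b) : S1 fun v => W (a v) (b v) :=
  hW.subst (t := fun i => match i with | 0 => a | _ => b) fun i =>
    match i with | 0 => ha | _ + 1 => hb

omit [LinearOrder M] in
theorem Tm.pr {s t : (ℕ → M) → M} (h1 : Tm s) (h2 : Tm t) : Tm fun v => pr (s v) (t v) :=
  Tm.add (Tm.mul (Tm.add h1 h2) (Tm.add h1 h2)) h1

/-- instance search for terms -/
class TmI (s : (ℕ → M) → M) : Prop where out : Tm s

instance (priority := 100) {s t : (ℕ → M) → M} [a : TmI s] [b : TmI t] :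
    TmI fun v => s v * t v := ⟨a.out.mul b.out⟩
instance (priority := 200) {s t : (ℕ → M) → M} [a : TmI s] [b : TmI t] :
    TmI fun v => s v + t v := ⟨a.out.add b.out⟩
instance (priority := 300) {s t : (ℕ → M) → M} [a : TmI s] [b : TmI t] :
    TmI fun v => pr (s v) (t v) := ⟨a.out.pr b.out⟩
instance (priority := 400) (c : M) : TmI fun _ => c := ⟨Tm.const c⟩
instance (priority := 500) (i : ℕ) : TmI fun v : ℕ → M => v i := ⟨Tm.var i⟩

end Pool.Agent.MP_62ad46_lc.H18
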